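import Pool.Agent.Helper529.Cov.Defs

set_option autoImplicit false

open Set Metric Filter Topology MeasureTheory
open scoped Manifold ComplexConjugate
open Pool.Agent.Helper240.Nev

namespace Pool.Agent.Helper529.Cov

variable {E M : Type*} [NormedAddCommGroup E] [NormedSpace ℂ E] [TopologicalSpace M]
  [ChartedSpace E M] {F : Foliation E M}


theorem isOpen_half (B : FBox F) : IsOpen B.half := by
  have : B.half = B.e.source ∩ B.e ⁻¹' (ball B.c B.ρ) := rfl
  rw [this]
  exact B.e.isOpen_inter_preimage isOpen_ball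

theorem exists_box {x : M} (hx : x ∉ F.sing) : ∃ B : FBox F, x ∈ B.half := by
  obtain ⟨e, he, v0, hv0, hgen⟩ := F.flowBox x hx
  obtain ⟨ε, hε, hball⟩ := Metric.isOpen_iff.mp e.open_target (e x) (e.map_source he.2)
  have hn : 0 < ‖v0‖ := norm_pos_iff.mpr hv0
  set k : ℝ := (ε / 2) / ‖v0‖ with hk
  have hkpos : 0 < k := by positivity
  have hkne : (k : ℂ) ≠ 0 := by exact_mod_cast hkpos.ne'
  refine ⟨{ e := e, heC := he.1, v := (k : ℂ) • v0, hv := smul_ne_zero hkne hv0,
            gen := ?_, c := e x, ρ := ε / 2, hρ := by positivity, hvρ := ?_, htar := ?_ }, ?_⟩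
  · intro y hy
    obtain ⟨h1, h2⟩ := hgen y hy
    refine ⟨?_, ?_⟩
    · rw [h1]
      simp only [smul_eq_zero, hkne, false_or]
    · intro hys w
      rw [h2 hys w]
      constructor
      · rintro ⟨c, hc⟩
        refine ⟨c / k, ?_⟩
        rw [hc, smul_smul, div_mul_cancel₀ _ hkne]
      · rintro ⟨c, hc⟩
        refine ⟨c * k, ?_⟩
        rw [hc, smul_smul]
  · rw [norm_smul, Complex.norm_real, Real.norm_of_nonneg hkpos.le, hk]
    rw [div_mul_cancel₀ _ hn.ne']
  · rw [show 2 * (ε / 2) = ε by ring]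
    exact hball
  · exact ⟨he.2, mem_ball_self (by positivity)⟩

theorem source_regular (B : FBox F) {y : M} (hy : y ∈ B.e.source) : y ∉ F.sing := by
  intro h
  exact B.hv ((B.gen y hy).1.mp h)

theorem pl_mem_target (B : FBox F) {y : M} (hy : y ∈ B.half) {t : ℂ} (ht : t ∈ ball (0 : ℂ) 1) :
    B.e y + t • B.v ∈ B.e.target := by
  apply B.htar
  rw [mem_ball, dist_eq_norm]
  have h1 : ‖B.e y - B.c‖ < B.ρ := by
    have := hy.2
    rwa [mem_ball, dist_eq_norm] at this
  have h2 : ‖t • B.v‖ ≤ B.ρ := by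
    rw [norm_smul]
    have h3 : ‖t‖ ≤ 1 := by
      have := ht
      rw [mem_ball, dist_zero_right] at this
      exact this.le
    calc ‖t‖ * ‖B.v‖ ≤ 1 * B.ρ := mul_le_mul h3 B.hvρ (norm_nonneg _) zero_le_one
      _ = B.ρ := one_mul _
  calc ‖B.e y + t • B.v - B.c‖ = ‖(B.e y - B.c) + t • B.v‖ := by congr 1; abel
    _ ≤ ‖B.e y - B.c‖ + ‖t • B.v‖ := norm_add_le _ _
    _ < 2 * B.ρ := by linarith

theorem e_pl (B : FBox F) {y : M} (hy : y ∈ B.half) {t : ℂ} (ht : t ∈ ball (0 : ℂ) 1) :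
    B.pl y t ∈ B.e.source ∧ B.e (B.pl y t) = B.e y + t • B.v := by
  have h := pl_mem_target B hy ht
  exact ⟨B.e.map_target h, B.e.right_inv h⟩

theorem pl_zero (B : FBox F) {y : M} (hy : y ∈ B.half) : B.pl y 0 = y := by
  unfold FBox.pl
  rw [zero_smul, add_zero]
  exact B.e.left_inv hy.1

theorem pl_injOn (B : FBox F) {y : M} (hy : y ∈ B.half) : InjOn (B.pl y) (ball (0 : ℂ) 1) := by
  intro s hs t ht h
  have h1 := (e_pl B hy hs).2
  have h2 := (e_pl B hy ht).2
  rw [h, h2] at h1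
  have h3 : t • B.v = s • B.v := add_left_cancel h1
  have h4 : (t - s) • B.v = 0 := by rw [sub_smul, h3, sub_self]
  rcases smul_eq_zero.mp h4 with h5 | h5
  · exact (sub_eq_zero.mp h5).symm
  · exact absurd h5 B.hv

theorem pl_tangent (B : FBox F) {y : M} (hy : y ∈ B.half) : F.IsTangentDisc (B.pl y) := by
  have h := isTangentDisc_of_curve (F := F) B.heC B.gen (z := fun t => B.e y + t • B.v) (c := 1)
    (fun t _ => by
      have h1 : HasDerivAt (fun t : ℂ => t • B.v) ((1 : ℂ) • B.v) t :=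
        (hasDerivAt_id t).smul_const B.v
      exact h1.const_add (B.e y))
    (fun t ht => pl_mem_target B hy ht) (fun _ _ => B.hv)
  exact h


end Pool.Agent.Helper529.Cov
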