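import Pool.Agent.Helper529.Cov.C9

set_option autoImplicit false

open Set Metric Filter Topology MeasureTheory
open scoped Manifold ComplexConjugate
open Pool.Agent.Helper240.Nev

namespace Pool.Agent.Helper529.Cov

variable {E M : Type*} [NormedAddCommGroup E] [NormedSpace ℂ E] [TopologicalSpace M]
  [ChartedSpace E M] {F : Foliation E M}


section
variable [IsManifold 𝓘(ℂ, E) 1 M]

theorem rigid_pos {ψ χ : ℂ → M} (hψ : IsCov F ψ) (hχ : IsCov F χ) (h0 : ψ 0 = χ 0)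
    (B : FBox F) (hB : ψ 0 ∈ B.half) (h1 : Pos B ψ) (h2 : Pos B χ) : EqOn ψ χ (ball 0 1) := by
  obtain ⟨a1, ha1, hd1⟩ := h1
  obtain ⟨a2, ha2, hd2⟩ := h2
  obtain ⟨u, hu, hχu⟩ := rigid hψ hχ h0
  have hz0 : (0 : ℂ) ∈ ball (0 : ℂ) 1 := mem_ball_self one_pos
  have hc : IsHolChartAt B.e (ψ 0) := ⟨B.heC, hB.1⟩
  have him := immersion hψ hz0
  have hne := chartDeriv_ne_zero hc him
  have hd3 := hasDerivAt_chart (hψ.1.mdiffAt hz0) hc
  have e1 := hd3.unique hd1
  have ha1' : (a1 : ℂ) ≠ 0 := by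
    intro h
    apply hne
    rw [e1, h, zero_smul]
  have hmul : HasDerivAt (fun z : ℂ => u * z) u 0 := by
    simpa using (hasDerivAt_id (0 : ℂ)).const_mul u
  have hd1' : HasDerivAt (fun z => B.e (ψ z)) ((a1 : ℂ) • B.v) (u * 0) := by
    rw [mul_zero]
    exact hd1
  have hd4 : HasDerivAt (fun z => B.e (ψ (u * z))) (u • ((a1 : ℂ) • B.v)) 0 :=
    hd1'.scomp 0 hmul
  have hev : (fun z => B.e (χ z)) =ᶠ[𝓝 0] fun z => B.e (ψ (u * z)) := by
    filter_upwards [isOpen_ball.mem_nhds hz0] with z hz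
    rw [hχu z hz]
  have e2 := (hd4.congr_of_eventuallyEq hev).unique hd2
  rw [smul_smul] at e2
  have e3 : u * (a1 : ℂ) = a2 := smul_left_injective ℂ B.hv e2
  have e4 : a1 = a2 := by
    have h := congrArg norm e3
    rw [norm_mul, hu, one_mul, Complex.norm_real, Complex.norm_real, Real.norm_of_nonneg ha1,
      Real.norm_of_nonneg ha2] at h
    exact h
  have e5 : u = 1 := by
    rw [← e4] at e3
    exact mul_right_cancel₀ ha1' (by rw [e3, one_mul])
  intro t ht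
  rw [hχu t ht, e5, one_mul]

end

section
variable [IsManifold 𝓘(ℂ, E) 1 M]

theorem exists_pos {φ : ℂ → M} (hφ : F.IsUniversalCovering φ) (B : FBox F) (hB : φ 0 ∈ B.half) :
    ∃ ψ : ℂ → M, F.IsUniversalCovering ψ ∧ ψ 0 = φ 0 ∧ Pos B ψ := by
  have hz0 : (0 : ℂ) ∈ ball (0 : ℂ) 1 := mem_ball_self one_pos
  have hc : IsHolChartAt B.e (φ 0) := ⟨B.heC, hB.1⟩
  obtain ⟨c, hd⟩ := hφ.tangent.exists_deriv B.gen hz0 hc
  have hd3 := hasDerivAt_chart (hφ.tangent.mdiffAt hz0) hc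
  have hne := chartDeriv_ne_zero hc (hφ.immersion 0 hz0)
  have e1 := hd3.unique hd
  have hc0 : c ≠ 0 := by
    intro h
    apply hne
    rw [e1, h, zero_smul]
  have hcn : (‖c‖ : ℂ) ≠ 0 := by
    rw [Ne, Complex.ofReal_eq_zero, norm_eq_zero]
    exact hc0
  have hcn' : ‖c‖ ≠ 0 := norm_ne_zero_iff.mpr hc0
  set u : ℂ := (starRingEnd ℂ) c / (‖c‖ : ℂ) with hu
  have hu1 : ‖u‖ = 1 := by
    rw [hu, norm_div, RCLike.norm_conj, Complex.norm_real, norm_norm, div_self hcn']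
  have huc : u * c = (‖c‖ : ℂ) := by
    rw [hu, div_mul_eq_mul_div, ← Complex.normSq_eq_conj_mul_self, Complex.normSq_eq_norm_sq,
      div_eq_iff hcn]
    push_cast
    ring
  refine ⟨fun z => φ (u * z), universalCovering_rot hφ hu1, ?_, ‖c‖, norm_nonneg _, ?_⟩
  · show φ (u * 0) = φ 0
    rw [mul_zero]
  · have hmul : HasDerivAt (fun z : ℂ => u * z) u 0 := by
      simpa using (hasDerivAt_id (0 : ℂ)).const_mul u
    have hd' : HasDerivAt (fun z => B.e (φ z)) (c • B.v) (u * 0) := by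
      rw [mul_zero]
      exact hd
    have hd4 : HasDerivAt (fun z => B.e (φ (u * z))) (u • (c • B.v)) 0 :=
      hd'.scomp 0 hmul
    rw [smul_smul, huc] at hd4
    exact hd4

end


end Pool.Agent.Helper529.Cov
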