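import Pool.Agent.Helper529.Cov.C12

set_option autoImplicit false

open Set Metric Filter Topology MeasureTheory
open scoped Manifold ComplexConjugate
open Pool.Agent.Helper240.Nev

namespace Pool.Agent.Helper529.Cov

variable {E M : Type*} [NormedAddCommGroup E] [NormedSpace ℂ E] [TopologicalSpace M]
  [ChartedSpace E M] {F : Foliation E M}


theorem closed_key {ι : Type*} {l : Filter ι} [l.NeBot] {Ψ : ι → Disc F} {ψ : Disc F}
    (h : Tendsto Ψ l (𝓝 ψ)) (B : FBox F) (ht : ∀ i, F.IsTangentDisc (ext (Ψ i))) {z₀ : ℂ}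
    (hz₀ : z₀ ∈ ball (0 : ℂ) 1) (hB : ext ψ z₀ ∈ B.half) :
    ∃ δ > 0, ∃ (Ai : ι → ℂ → ℂ) (A : ℂ → ℂ),
      TendstoUniformlyOn Ai A l (ball z₀ δ) ∧
      (∀ᶠ i in l, DifferentiableOn ℂ (Ai i) (ball z₀ δ) ∧
        ∀ z ∈ ball z₀ δ, B.e (ext (Ψ i) z) = B.e (ext (Ψ i) z₀) + Ai i z • B.v) ∧
      ∀ z ∈ ball z₀ δ, ext ψ z ∈ B.half ∧ B.e (ext ψ z) = B.e (ext ψ z₀) + A z • B.v := by
  obtain ⟨δ, hδ, hsub, hev, hhalf, hunif⟩ := tendsto_chart h B hz₀ hB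
  obtain ⟨L, hL⟩ := SeparatingDual.exists_eq_one (R := ℂ) B.hv
  have hz₀δ : z₀ ∈ ball z₀ δ := mem_ball_self hδ
  have h1 : TendstoUniformlyOn (fun i z => L (B.e (ext (Ψ i) z))) (fun z => L (B.e (ext ψ z))) l (ball z₀ δ) :=
    L.uniformContinuous.comp_tendstoUniformlyOn hunif
  have h2 : Tendsto (fun i => L (B.e (ext (Ψ i) z₀))) l (𝓝 (L (B.e (ext ψ z₀)))) :=
    h1.tendsto_at hz₀δ
  have h3 : TendstoUniformlyOn (fun i z => L (B.e (ext (Ψ i) z)) - L (B.e (ext (Ψ i) z₀)))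
      (fun z => L (B.e (ext ψ z)) - L (B.e (ext ψ z₀))) l (ball z₀ δ) :=
    h1.sub (h2.tendstoUniformlyOn_const _)
  have hA : ∀ᶠ i in l, DifferentiableOn ℂ (fun z => L (B.e (ext (Ψ i) z)) - L (B.e (ext (Ψ i) z₀))) (ball z₀ δ) ∧
        ∀ z ∈ ball z₀ δ, B.e (ext (Ψ i) z) = B.e (ext (Ψ i) z₀) +
          (L (B.e (ext (Ψ i) z)) - L (B.e (ext (Ψ i) z₀))) • B.v := by
    filter_upwards [hev] with i hi
    obtain ⟨a, ha, hae⟩ := tangent_chart (ht i) B hsub hi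
    have h4 : ∀ z ∈ ball z₀ δ, L (B.e (ext (Ψ i) z)) - L (B.e (ext (Ψ i) z₀)) = a z := by
      intro z hz
      rw [hae z hz, map_add, map_smul, hL, smul_eq_mul, mul_one]
      ring
    refine ⟨ha.congr h4, fun z hz => ?_⟩
    rw [h4 z hz]
    exact hae z hz
  refine ⟨δ, hδ, _, _, h3, hA, fun z hz => ⟨hhalf z hz, ?_⟩⟩
  have h5 : Tendsto (fun i => B.e (ext (Ψ i) z)) l (𝓝 (B.e (ext ψ z))) := hunif.tendsto_at hz
  have h6 : Tendsto (fun i => B.e (ext (Ψ i) z₀)) l (𝓝 (B.e (ext ψ z₀))) := hunif.tendsto_at hz₀δ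
  have h7 : Tendsto (fun i => B.e (ext (Ψ i) z₀) +
      (L (B.e (ext (Ψ i) z)) - L (B.e (ext (Ψ i) z₀))) • B.v) l
      (𝓝 (B.e (ext ψ z₀) + (L (B.e (ext ψ z)) - L (B.e (ext ψ z₀))) • B.v)) :=
    h6.add ((h3.tendsto_at hz).smul_const _)
  refine tendsto_nhds_unique h5 (h7.congr' ?_)
  filter_upwards [hA] with i hi
  exact (hi.2 z hz).symm

theorem closed_tangent {ι : Type*} {l : Filter ι} [l.NeBot] {Ψ : ι → Disc F} {ψ : Disc F}
    (h : Tendsto Ψ l (𝓝 ψ)) (ht : ∀ i, F.IsTangentDisc (ext (Ψ i))) :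
    F.IsTangentDisc (ext ψ) := by
  refine isTangentDisc_of_local fun z₀ hz₀ => ?_
  have hreg : ext ψ z₀ ∉ F.sing := by
    rw [ext_apply ψ hz₀]
    exact (ψ ⟨z₀, hz₀⟩ : Reg F).2
  obtain ⟨B, hB⟩ := exists_box hreg
  obtain ⟨δ, hδ, Ai, A, hunif, hAi, hA⟩ := closed_key h B ht hz₀ hB
  have hz₀δ : z₀ ∈ ball z₀ δ := mem_ball_self hδ
  have hdiff : DifferentiableOn ℂ A (ball z₀ δ) :=
    hunif.tendstoLocallyUniformlyOn.differentiableOn (hAi.mono fun i hi => hi.1) isOpen_ball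
  refine ⟨B, ext ψ z₀, A, hB, hdiff.differentiableAt (isOpen_ball.mem_nhds hz₀δ), ?_, ?_⟩
  · have h1 := (hA z₀ hz₀δ).2
    have h2 : A z₀ • B.v = 0 := by
      have := h1.symm
      rwa [add_eq_left] at this
    have h3 : A z₀ = 0 := (smul_eq_zero.1 h2).resolve_right B.hv
    rw [h3]; exact mem_ball_self one_pos
  · filter_upwards [isOpen_ball.mem_nhds hz₀δ] with t ht
    rw [FBox.pl, ← (hA t ht).2]
    exact (B.e.left_inv (hA t ht).1.1).symm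

theorem closed_pos {ι : Type*} {l : Filter ι} [l.NeBot] {Ψ : ι → Disc F} {ψ : Disc F}
    (h : Tendsto Ψ l (𝓝 ψ)) (B : FBox F) (ht : ∀ i, F.IsTangentDisc (ext (Ψ i)))
    (hB : ext ψ 0 ∈ B.half) (hpos : ∀ᶠ i in l, Pos B (ext (Ψ i))) : Pos B (ext ψ) := by
  have hz₀ : (0 : ℂ) ∈ ball (0 : ℂ) 1 := mem_ball_self one_pos
  obtain ⟨δ, hδ, Ai, A, hunif, hAi, hA⟩ := closed_key h B ht hz₀ hB
  have hz₀δ : (0 : ℂ) ∈ ball (0 : ℂ) δ := mem_ball_self hδ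
  have hloc := hunif.tendstoLocallyUniformlyOn
  have hd1 : ∀ᶠ i in l, DifferentiableOn ℂ (Ai i) (ball 0 δ) := hAi.mono fun i hi => hi.1
  have hdiff : DifferentiableOn ℂ A (ball 0 δ) := hloc.differentiableOn hd1 isOpen_ball
  have hder : Tendsto (fun i => deriv (Ai i) 0) l (𝓝 (deriv A 0)) :=
    (hloc.deriv hd1 isOpen_ball).tendsto_at hz₀δ
  obtain ⟨L, hL⟩ := SeparatingDual.exists_eq_one (R := ℂ) B.hv
  have hreal : ∀ᶠ i in l, deriv (Ai i) 0 ∈ {x : ℂ | 0 ≤ x.re ∧ x.im = 0} := by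
    filter_upwards [hAi, hpos] with i hi hp
    obtain ⟨a, ha, hda⟩ := hp
    have h1 : HasDerivAt (Ai i) (deriv (Ai i) 0) 0 :=
      (hi.1.differentiableAt (isOpen_ball.mem_nhds hz₀δ)).hasDerivAt
    have h2 : HasDerivAt (fun z => B.e (ext (Ψ i) 0) + Ai i z • B.v) (deriv (Ai i) 0 • B.v) 0 :=
      (h1.smul_const B.v).const_add _
    have h3 : HasDerivAt (fun z => B.e (ext (Ψ i) z)) (deriv (Ai i) 0 • B.v) 0 := by
      refine h2.congr_of_eventuallyEq ?_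
      filter_upwards [isOpen_ball.mem_nhds hz₀δ] with z hz
      exact hi.2 z hz
    have h4 : deriv (Ai i) 0 • B.v = (a : ℂ) • B.v := h3.unique hda
    have h5 := congrArg L h4
    rw [map_smul, map_smul, hL, smul_eq_mul, smul_eq_mul, mul_one, mul_one] at h5
    rw [h5]
    exact ⟨by simpa using ha, by simp⟩
  have hclosed : IsClosed {x : ℂ | 0 ≤ x.re ∧ x.im = 0} :=
    (isClosed_le continuous_const Complex.continuous_re).inter
      (isClosed_eq Complex.continuous_im continuous_const)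
  have hlim : deriv A 0 ∈ {x : ℂ | 0 ≤ x.re ∧ x.im = 0} := hclosed.mem_of_tendsto hder hreal
  refine ⟨(deriv A 0).re, hlim.1, ?_⟩
  have he : (((deriv A 0).re : ℝ) : ℂ) = deriv A 0 := by
    apply Complex.ext
    · simp
    · simp [hlim.2]
  rw [he]
  have h1 : HasDerivAt A (deriv A 0) 0 := (hdiff.differentiableAt (isOpen_ball.mem_nhds hz₀δ)).hasDerivAt
  have h2 : HasDerivAt (fun z => B.e (ext ψ 0) + A z • B.v) (deriv A 0 • B.v) 0 :=
    (h1.smul_const B.v).const_add _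
  refine h2.congr_of_eventuallyEq ?_
  filter_upwards [isOpen_ball.mem_nhds hz₀δ] with z hz
  exact (hA z hz).2


end Pool.Agent.Helper529.Cov
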