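import Pool.Agent.Helper529.Cov.C14

set_option autoImplicit false

open Set Metric Filter Topology MeasureTheory
open scoped Manifold ComplexConjugate
open Pool.Agent.Helper240.Nev

namespace Pool.Agent.Helper529.Cov

variable {E M : Type*} [NormedAddCommGroup E] [NormedSpace ℂ E] [TopologicalSpace M]
  [ChartedSpace E M] {F : Foliation E M}

/-- the closed set of discs attached to a flow box -/
def DD (B : FBox F) : Set (Disc F) :=
  {ψ | IsCov F (ext ψ) ∧ (ext ψ 0 ∈ B.half → Pos B (ext ψ))}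


theorem closed_PL [T2Space M] {ι : Type*} (𝒰 : Ultrafilter ι) {Ψ : ι → Disc F} {ψ : Disc F}
    (h : Tendsto Ψ 𝒰 (𝓝 ψ)) (ht : ∀ i, PL F (ext (Ψ i))) : PL F (ext ψ) := by
  classical
  intro B z hz hψ
  have hlim : Tendsto (fun i => ext (Ψ i) z) 𝒰 (𝓝 (ext ψ z)) :=
    tendsto_ext h hz tendsto_const_nhds
  have hev : ∀ᶠ i in (𝒰 : Filter ι), ext (Ψ i) z ∈ B.half :=
    hlim.eventually ((isOpen_half B).mem_nhds hψ)
  have hch : ∀ i, ∃ s : ℂ → ℂ, ext (Ψ i) z ∈ B.half →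
      (DifferentiableOn ℂ s (ball 0 1) ∧ MapsTo s (ball 0 1) (ball 0 1) ∧ s 0 = z ∧
        ∀ t ∈ ball (0 : ℂ) 1, ext (Ψ i) (s t) = B.pl (ext (Ψ i) z) t) := by
    intro i
    by_cases hi : ext (Ψ i) z ∈ B.half
    · obtain ⟨s, hs⟩ := ht i B z hz hi
      exact ⟨s, fun _ => hs⟩
    · exact ⟨fun _ => 0, fun h => absurd h hi⟩
  choose s hs using hch
  obtain ⟨g, hgd, hgm, hg0, hgt⟩ := montel_disc 𝒰 s (z := z)
    (hev.mono fun i hi => ⟨(hs i hi).1, (hs i hi).2.1, (hs i hi).2.2.1⟩)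
  refine ⟨g, hgd, hgm, hg0, fun t ht' => ?_⟩
  have h1 : Tendsto (fun i => ext (Ψ i) (s i t)) 𝒰 (𝓝 (ext ψ (g t))) :=
    tendsto_ext h (hgm ht') (hgt t ht')
  have h2 : Tendsto (fun i => B.pl (ext (Ψ i) z) t) 𝒰 (𝓝 (B.pl (ext ψ z) t)) := by
    have hc1 : ContinuousAt B.e (ext ψ z) := B.e.continuousAt hψ.1
    have hc2 : ContinuousAt B.e.symm (B.e (ext ψ z) + t • B.v) :=
      B.e.continuousAt_symm (pl_mem_target B hψ ht')
    have h3 : Tendsto (fun i => B.e (ext (Ψ i) z) + t • B.v) 𝒰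
        (𝓝 (B.e (ext ψ z) + t • B.v)) := (hc1.tendsto.comp hlim).add_const _
    exact hc2.tendsto.comp h3
  have h4 : Tendsto (fun i => ext (Ψ i) (s i t)) 𝒰 (𝓝 (B.pl (ext ψ z) t)) := by
    refine h2.congr' (hev.mono fun i hi => ?_)
    exact ((hs i hi).2.2.2 t ht').symm
  exact tendsto_nhds_unique h1 h4

theorem isClosed_DD [T2Space M] (B : FBox F) : IsClosed (DD B) := by
  rw [isClosed_iff_ultrafilter]
  intro ψ u hu hD
  let v : Ultrafilter (DD B) := u.comap (m := (Subtype.val : DD B → Disc F)) Subtype.val_injective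
    (by rw [Subtype.range_coe]; exact hD)
  have h : Tendsto (Subtype.val : DD B → Disc F) v (𝓝 ψ) := by
    have h1 : Tendsto (Subtype.val : DD B → Disc F) v u := by
      rw [show (v : Filter (DD B)) = Filter.comap Subtype.val (u : Filter (Disc F)) from
        Ultrafilter.coe_comap ..]
      exact tendsto_comap
    exact h1.mono_right hu
  refine ⟨⟨closed_tangent h (fun i => i.2.1.1), closed_PL v h (fun i => i.2.1.2)⟩, fun hB => ?_⟩
  have hz : (0 : ℂ) ∈ ball (0 : ℂ) 1 := mem_ball_self one_pos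
  have hev : ∀ᶠ i : DD B in (v : Filter (DD B)), ext (i : Disc F) 0 ∈ B.half :=
    (tendsto_ext h hz tendsto_const_nhds).eventually ((isOpen_half B).mem_nhds hB)
  exact closed_pos h B (fun i => i.2.1.1) hB (hev.mono fun i hi => i.2.2 hi)


end Pool.Agent.Helper529.Cov
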