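import Pool.Agent.Helper529.Cov.C15

set_option autoImplicit false

open Set Metric Filter Topology MeasureTheory
open scoped Manifold ComplexConjugate
open Pool.Agent.Helper240.Nev

namespace Pool.Agent.Helper529.Cov

variable {E M : Type*} [NormedAddCommGroup E] [NormedSpace ℂ E] [TopologicalSpace M]
  [ChartedSpace E M] {F : Foliation E M}


theorem polish_continuousMap (X Y : Type*) [TopologicalSpace X] [LocallyCompactSpace X]
    [SecondCountableTopology X] [T2Space X] [TopologicalSpace Y] [PolishSpace Y] :
    PolishSpace C(X, Y) := by
  letI : TopologicalSpace.UpgradedIsCompletelyMetrizableSpace Y :=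
    TopologicalSpace.upgradeIsCompletelyMetrizable Y
  haveI : TopologicalSpace.MetrizableSpace C(X, Y) := inferInstance
  haveI : TopologicalSpace.IsCompletelyMetrizableSpace C(X, Y) := inferInstance
  infer_instance

/-- a compact manifold is Polish, and so is its regular part -/
theorem polish_reg [FiniteDimensional ℂ E] [T2Space M] [CompactSpace M] (F : Foliation E M) :
    PolishSpace (Reg F) := by
  haveI : ProperSpace E := FiniteDimensional.proper ℂ E
  haveI : SecondCountableTopology E := inferInstance
  haveI : SecondCountableTopology M := ChartedSpace.secondCountable_of_sigmaCompact E M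
  haveI : PolishSpace M := by
    letI : MetricSpace M := TopologicalSpace.metrizableSpaceMetric M
    infer_instance
  exact F.isClosed_sing.isOpen_compl.polishSpace


end Pool.Agent.Helper529.Cov
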