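import Pool.Agent.Helper529.Cov.C18

set_option autoImplicit false

open Set Metric Filter Topology MeasureTheory
open scoped Manifold ComplexConjugate
open Pool.Agent.Helper240.Nev

namespace Pool.Agent.Helper529.Cov

variable {E M : Type*} [NormedAddCommGroup E] [NormedSpace ℂ E] [TopologicalSpace M]
  [ChartedSpace E M] {F : Foliation E M}


/-- **Universal coverings of hyperbolic leaves depend measurably on the base point.** -/
theorem exists_measurable_coverings [FiniteDimensional ℂ E] [T2Space M] [CompactSpace M]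
    [IsManifold 𝓘(ℂ, E) 1 M] [MeasurableSpace M] [BorelSpace M] (F : Foliation E M) :
    ∃ Φ : M → ℂ → M, Measurable (fun p : M × ℂ => Φ p.1 p.2) ∧
      (∀ x, ContinuousOn (Φ x) (Metric.ball 0 1)) ∧
      ∀ x, (∃ φ, F.IsUniversalCovering φ ∧ φ 0 = x) → F.IsUniversalCovering (Φ x) ∧ Φ x 0 = x := by
  have h0 : (0 : ℂ) ∈ ball (0 : ℂ) 1 := mem_ball_self one_pos
  rcases isEmpty_or_nonempty (Reg F) with hemp | hne
  · refine ⟨fun x _ => x, measurable_fst, fun x => continuousOn_const, ?_⟩
    rintro x ⟨φ, hφ, rfl⟩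
    exact (hemp.false ⟨φ 0, (hφ.tangent.2 0 h0).1⟩).elim
  · obtain ⟨B, hB⟩ := exists_countable_boxes F hne
    haveI hpr : PolishSpace (Reg F) := polish_reg F
    haveI hlc : LocallyCompactSpace (ball (0 : ℂ) 1) := isOpen_ball.locallyCompactSpace
    haveI hpd : PolishSpace (Disc F) := polish_continuousMap _ _
    haveI hnd : Nonempty (Disc F) := ⟨ContinuousMap.const _ hne.some⟩
    borelize (Disc F)
    obtain ⟨sel, hsel, hsel2⟩ := selection (P := Disc F) (Y := Reg F)
      (fun ψ => ψ ⟨0, h0⟩) (continuous_eval_const _)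
      (fun i => {x : Reg F | (x : M) ∈ (B i).half})
      (fun i => (isOpen_half (B i)).preimage continuous_subtype_val)
      (fun i => DD (B i)) (fun i => isClosed_DD (B i))
      (by
        intro i p hp q hq hpq hpU
        have e1 : ext p 0 = ext q 0 := by
          rw [ext_apply p h0, ext_apply q h0]
          exact congrArg _ hpq
        have e2 : ext p 0 ∈ (B i).half := by
          rw [ext_apply p h0]; exact hpU
        have e3 := rigid_pos hp.1 hq.1 e1 (B i) e2 (hp.2 e2) (hq.2 (e1 ▸ e2))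
        refine ContinuousMap.ext fun z => Subtype.ext ?_
        have e4 := e3 z.2
        rw [ext_apply p z.2, ext_apply q z.2] at e4
        exact e4)
    obtain ⟨Φ, hΦ1, hΦ2, hΦ3⟩ := measurable_eval sel hsel
    refine ⟨Φ, hΦ1, hΦ2, ?_⟩
    rintro x ⟨φ, hφ, hφx⟩
    classical
    have hxr : x ∉ F.sing := by
      rw [← hφx]; exact (hφ.tangent.2 0 h0).1
    have hex := hB x hxr
    set i := Nat.find hex with hi
    have hxi : x ∈ (B i).half := Nat.find_spec hex
    obtain ⟨ψ, hψ, hψ0, hψpos⟩ := exists_pos hφ (B i) (by rw [hφx]; exact hxi)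
    obtain ⟨Ψ, hΨ⟩ := exists_ext hψ.tangent
    have hΨ0 : ext Ψ 0 = x := by rw [hΨ h0, hψ0, hφx]
    have hD : Ψ ∈ DD (B i) := by
      refine ⟨⟨tangentDisc_congr hΨ.symm hψ.tangent, PL_congr hΨ.symm
        (PL_of_universalCovering hψ)⟩, fun _ => ?_⟩
      obtain ⟨a, ha, hd⟩ := hψpos
      refine ⟨a, ha, hd.congr_of_eventuallyEq ?_⟩
      filter_upwards [isOpen_ball.mem_nhds h0] with z hz
      rw [hΨ hz]
    have hev : Ψ ⟨0, h0⟩ = (⟨x, hxr⟩ : Reg F) := by
      apply Subtype.ext
      rw [← ext_apply Ψ h0, hΨ0]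
    have hs : sel (⟨x, hxr⟩ : Reg F) = Ψ := by
      have := hsel2 i Ψ hD (by
        change ((Ψ ⟨0, h0⟩ : Reg F) : M) ∈ (B i).half
        rw [hev]; exact hxi) (by
        intro j hj hcon
        change ((Ψ ⟨0, h0⟩ : Reg F) : M) ∈ (B j).half at hcon
        rw [hev] at hcon
        exact Nat.find_min hex hj hcon)
      simpa only [hev] using this
    have hfin : EqOn ψ (Φ x) (ball 0 1) := by
      intro z hz
      have e1 := hΦ3 ⟨x, hxr⟩ hz
      rw [hs, hΨ hz] at e1
      exact e1.symm
    refine ⟨universalCovering_congr hfin hψ, ?_⟩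
    rw [← hfin h0, hψ0, hφx]


end Pool.Agent.Helper529.Cov
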