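import Pool.Agent.Helper529.Cov.C5

set_option autoImplicit false

open Set Metric Filter Topology MeasureTheory
open scoped Manifold ComplexConjugate
open Pool.Agent.Helper240.Nev

namespace Pool.Agent.Helper529.Cov

variable {E M : Type*} [NormedAddCommGroup E] [NormedSpace ℂ E] [TopologicalSpace M]
  [ChartedSpace E M] {F : Foliation E M}


/-- good open sets for the local form -/
def lfGood (F : Foliation E M) (ψ : ℂ → M) (U : Set ℂ) : Prop :=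
  IsOpen U ∧ ∃ (B : FBox F) (w : E) (A : ℂ → ℂ), DifferentiableOn ℂ A U ∧
    ∀ z ∈ U, ψ z ∈ B.half ∧ B.e (ψ z) = w + A z • B.v ∧ ‖A z‖ < 1 / 2

theorem lf_exists {ψ : ℂ → M} (hψ : F.IsTangentDisc ψ) {ζ : ℂ} (hζ : ζ ∈ ball (0 : ℂ) 1) :
    ∃ U : Set ℂ, lfGood F ψ U ∧ ζ ∈ U := by
  obtain ⟨B, hB⟩ := exists_box (F := F) (hψ.2 ζ hζ).1
  have h1 : ∀ᶠ z in 𝓝 ζ, ψ z ∈ B.half := (hψ.contAt hζ).eventually ((isOpen_half B).mem_nhds hB)
  have h2 : ∀ᶠ z in 𝓝 ζ, z ∈ ball (0 : ℂ) 1 := isOpen_ball.mem_nhds hζ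
  obtain ⟨r, hr, hr2⟩ := Metric.eventually_nhds_iff_ball.mp (h1.and h2)
  obtain ⟨L, hL⟩ := SeparatingDual.exists_eq_one (R := ℂ) B.hv
  have hd : ∀ z ∈ ball ζ r, ∃ c : ℂ, HasDerivAt (fun z => B.e (ψ z)) (c • B.v) z := by
    intro z hz
    obtain ⟨hz1, hz2⟩ := hr2 z hz
    exact hψ.exists_deriv B.gen hz2 ⟨B.heC, hz1.1⟩
  have hLd : ∀ z ∈ ball ζ r, ∀ c : ℂ, HasDerivAt (fun z => B.e (ψ z)) (c • B.v) z →
      HasDerivAt (fun z => L (B.e (ψ z))) c z := by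
    intro z hz c hc
    have := (L.hasFDerivAt (x := B.e (ψ z))).comp_hasDerivAt z hc
    have e : L (c • B.v) = c := by rw [map_smul, hL, smul_eq_mul, mul_one]
    rw [e] at this
    exact this
  have hH : ∀ z ∈ ball ζ r, HasDerivAt (fun z => B.e (ψ z) - L (B.e (ψ z)) • B.v) 0 z := by
    intro z hz
    obtain ⟨c, hc⟩ := hd z hz
    have := hc.sub ((hLd z hz c hc).smul_const B.v)
    rw [sub_self] at this
    exact this
  have hconst : ∀ z ∈ ball ζ r, B.e (ψ z) - L (B.e (ψ z)) • B.v =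
      B.e (ψ ζ) - L (B.e (ψ ζ)) • B.v := by
    intro z hz
    exact isOpen_ball.is_const_of_deriv_eq_zero (convex_ball ζ r).isPreconnected
      (fun z hz => (hH z hz).differentiableAt.differentiableWithinAt)
      (fun z hz => (hH z hz).deriv) hz (mem_ball_self hr)
  set A : ℂ → ℂ := fun z => L (B.e (ψ z)) - L (B.e (ψ ζ)) with hA
  have hAd : DifferentiableOn ℂ A (ball ζ r) := by
    intro z hz
    obtain ⟨c, hc⟩ := hd z hz
    exact ((hLd z hz c hc).sub_const _).differentiableAt.differentiableWithinAt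
  have hA0 : A ζ = 0 := by simp [hA]
  have hAc : ContinuousAt A ζ := (hAd.differentiableAt (ball_mem_nhds ζ hr)).continuousAt
  have h3 : ∀ᶠ z in 𝓝 ζ, ‖A z‖ < 1 / 2 := by
    have : Tendsto (fun z => ‖A z‖) (𝓝 ζ) (𝓝 ‖A ζ‖) := hAc.norm
    rw [hA0, norm_zero] at this
    exact this.eventually_lt_const (by norm_num)
  obtain ⟨r', hr', hr2'⟩ := Metric.eventually_nhds_iff_ball.mp h3
  refine ⟨ball ζ (min r r'), ⟨isOpen_ball, B, B.e (ψ ζ), A, hAd.mono (ball_subset_ball (min_le_left _ _)), ?_⟩,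
    mem_ball_self (lt_min hr hr')⟩
  intro z hz
  have hz1 : z ∈ ball ζ r := ball_subset_ball (min_le_left _ _) hz
  have hz2 : z ∈ ball ζ r' := ball_subset_ball (min_le_right _ _) hz
  refine ⟨(hr2 z hz1).1, ?_, hr2' z hz2⟩
  have := hconst z hz1
  have e : B.e (ψ z) = (B.e (ψ z) - L (B.e (ψ z)) • B.v) + L (B.e (ψ z)) • B.v := by
    rw [sub_add_cancel]
  rw [e, this, hA]
  simp only [sub_smul]
  abel

/-- local form of a tangent disc, with uniform radius on compact sets: near `ζ`, the tangent disc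
runs in the plaque through `ψ ζ`. -/
theorem local_form {ψ : ℂ → M} (hψ : F.IsTangentDisc ψ) {R : ℝ} (hR : R < 1) :
    ∃ δ > 0, R + δ ≤ 1 ∧ ∀ ζ : ℂ, ‖ζ‖ ≤ R → ∃ B : FBox F, ψ ζ ∈ B.half ∧ ∃ a : ℂ → ℂ,
      DifferentiableOn ℂ a (ball ζ δ) ∧ MapsTo a (ball ζ δ) (ball 0 1) ∧ a ζ = 0 ∧
        ∀ t ∈ ball ζ δ, ψ t = B.pl (ψ ζ) (a t) := by
  obtain ⟨δ, hδ, hδ2⟩ := lebesgue_number_lemma_of_metric (s := closedBall (0 : ℂ) R)
    (c := fun U : {U : Set ℂ // lfGood F ψ U} => U.1) (isCompact_closedBall 0 R)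
    (fun U => U.2.1) (by
      intro z hz
      have hz1 : z ∈ ball (0 : ℂ) 1 := by
        rw [mem_ball_zero_iff]
        rw [mem_closedBall_zero_iff] at hz
        linarith
      obtain ⟨U, hU, hzU⟩ := lf_exists hψ hz1
      exact mem_iUnion.mpr ⟨⟨U, hU⟩, hzU⟩)
  refine ⟨min δ (1 - R), lt_min hδ (by linarith), by linarith [min_le_right δ (1 - R)], ?_⟩
  intro ζ hζ
  obtain ⟨⟨U, hU⟩, hsub⟩ := hδ2 ζ (mem_closedBall_zero_iff.mpr hζ)
  obtain ⟨hUo, B, w, A, hAd, hAll⟩ := hU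
  have hpos : 0 < min δ (1 - R) := lt_min hδ (by linarith)
  have hsub' : ball ζ (min δ (1 - R)) ⊆ U := (ball_subset_ball (min_le_left _ _)).trans hsub
  have hζU : ζ ∈ U := hsub' (mem_ball_self hpos)
  obtain ⟨h1, h2, h3⟩ := hAll ζ hζU
  refine ⟨B, h1, fun t => A t - A ζ, (hAd.mono hsub').sub_const _, ?_, sub_self _, ?_⟩
  · intro t ht
    obtain ⟨h4, h5, h6⟩ := hAll t (hsub' ht)
    rw [mem_ball_zero_iff]
    calc ‖A t - A ζ‖ ≤ ‖A t‖ + ‖A ζ‖ := norm_sub_le _ _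
      _ < 1 := by linarith
  · intro t ht
    obtain ⟨h4, h5, h6⟩ := hAll t (hsub' ht)
    unfold FBox.pl
    rw [h2, sub_smul, add_assoc, add_sub_cancel, ← h5]
    exact (B.e.left_inv h4.1).symm


end Pool.Agent.Helper529.Cov
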