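import Pool.Agent.Helper529.Cov.C3

set_option autoImplicit false

open Set Metric Filter Topology MeasureTheory
open scoped Manifold ComplexConjugate
open Pool.Agent.Helper240.Nev

namespace Pool.Agent.Helper529.Cov

variable {E M : Type*} [NormedAddCommGroup E] [NormedSpace ℂ E] [TopologicalSpace M]
  [ChartedSpace E M] {F : Foliation E M}


section
variable [IsManifold 𝓘(ℂ, E) 1 M]

theorem PL_of_universalCovering {φ : ℂ → M} (hφ : F.IsUniversalCovering φ) : PL F φ := by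
  intro B z hz hy
  obtain ⟨f, hf1, hf2, hf3, hf4⟩ := exists_lift hφ (pl_tangent B hy) hz (pl_zero B hy)
  exact ⟨f, lift_differentiable hφ (pl_tangent B hy) hf1 hf2 hf4, hf2, hf3, hf4⟩

end

section
variable [IsManifold 𝓘(ℂ, E) 1 M]

theorem immersion {ψ : ℂ → M} (hψ : IsCov F ψ) {z : ℂ} (hz : z ∈ ball (0 : ℂ) 1) :
    discDeriv (E := E) ψ z 1 ≠ 0 := by
  intro h0
  obtain ⟨ht, hPL⟩ := hψ
  obtain ⟨B, hB⟩ := exists_box (ht.2 z hz).1
  obtain ⟨s, hs1, hs2, hs3, hs4⟩ := hPL B z hz hB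
  have h1 : HasDerivAt (fun w => B.e (ψ w)) (chartDeriv B.e (ψ z) (discDeriv ψ z 1)) z :=
    hasDerivAt_chart (ht.mdiffAt hz) ⟨B.heC, hB.1⟩
  have h2 : chartDeriv B.e (ψ z) (discDeriv ψ z 1) = 0 := by
    rw [h0]
    unfold chartDeriv
    exact map_zero _
  rw [h2] at h1
  have h3 : HasDerivAt s (deriv s 0) 0 :=
    (hs1.differentiableAt (isOpen_ball.mem_nhds (mem_ball_self one_pos))).hasDerivAt
  rw [← hs3] at h1
  have h4 := h1.scomp (0:ℂ) h3
  rw [smul_zero] at h4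
  have h5 : HasDerivAt (fun t : ℂ => B.e (ψ z) + t • B.v) ((1:ℂ) • B.v) 0 :=
    ((hasDerivAt_id (0:ℂ)).smul_const B.v).const_add _
  have h6 : (fun t : ℂ => B.e (ψ z) + t • B.v) =ᶠ[𝓝 0] ((fun w => B.e (ψ w)) ∘ s) := by
    filter_upwards [isOpen_ball.mem_nhds (mem_ball_self (x := (0:ℂ)) one_pos)] with t ht'
    simp only [Function.comp]
    rw [hs4 t ht', (e_pl B hB ht').2]
  have h7 := h5.unique (h4.congr_of_eventuallyEq h6)
  rw [one_smul] at h7
  exact B.hv h7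

end

section
variable [IsManifold 𝓘(ℂ, E) 1 M]

theorem locally_injective {ψ : ℂ → M} (hψ : IsCov F ψ) {z : ℂ} (hz : z ∈ ball (0 : ℂ) 1) :
    ∃ δ > 0, InjOn ψ (ball z δ) := by
  have him := immersion hψ hz
  obtain ⟨ht, hPL⟩ := hψ
  obtain ⟨B, hB⟩ := exists_box (ht.2 z hz).1
  have h1 : HasDerivAt (fun w => B.e (ψ w)) (chartDeriv B.e (ψ z) (discDeriv ψ z 1)) z :=
    hasDerivAt_chart (ht.mdiffAt hz) ⟨B.heC, hB.1⟩
  have hne : chartDeriv B.e (ψ z) (discDeriv ψ z 1) ≠ 0 :=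
    chartDeriv_ne_zero (show IsHolChartAt B.e (ψ z) from ⟨B.heC, hB.1⟩) him
  obtain ⟨l, hl⟩ := SeparatingDual.exists_ne_zero (R := ℂ) hne
  have hev : ∀ᶠ w in 𝓝 z, DifferentiableAt ℂ (fun w => l (B.e (ψ w))) w := by
    have h2 : ∀ᶠ w in 𝓝 z, ψ w ∈ B.half := (ht.contAt hz).eventually_mem ((isOpen_half B).mem_nhds hB)
    filter_upwards [h2, isOpen_ball.mem_nhds hz] with w hw hw1
    have h3 : HasDerivAt (fun w => B.e (ψ w)) (chartDeriv B.e (ψ w) (discDeriv ψ w 1)) w :=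
      hasDerivAt_chart (ht.mdiffAt hw1) ⟨B.heC, hw.1⟩
    exact (l.hasFDerivAt.comp_hasDerivAt w h3).differentiableAt
  have hder : HasDerivAt (fun w => l (B.e (ψ w)))
      (l (chartDeriv B.e (ψ z) (discDeriv ψ z 1))) z :=
    l.hasFDerivAt.comp_hasDerivAt z h1
  have han : AnalyticAt ℂ (fun w => l (B.e (ψ w))) z :=
    Complex.analyticAt_iff_eventually_differentiableAt.2 hev
  have hst := han.hasStrictDerivAt
  rw [hder.deriv] at hst
  have hst2 := hst.hasStrictFDerivAt_equiv hl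
  have hmem := hst2.mem_toOpenPartialHomeomorph_source
  obtain ⟨δ, hδ, hsub⟩ := Metric.isOpen_iff.1
    (hst2.toOpenPartialHomeomorph (fun w => l (B.e (ψ w)))).open_source z hmem
  refine ⟨δ, hδ, fun w hw w' hw' hww => ?_⟩
  apply (hst2.toOpenPartialHomeomorph (fun w => l (B.e (ψ w)))).injOn (hsub hw) (hsub hw')
  rw [hst2.toOpenPartialHomeomorph_coe]
  simp only [hww]

end


end Pool.Agent.Helper529.Cov
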