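import Pool.Agent.Helper529.Cov.C6

set_option autoImplicit false

open Set Metric Filter Topology MeasureTheory
open scoped Manifold ComplexConjugate
open Pool.Agent.Helper240.Nev

namespace Pool.Agent.Helper529.Cov

variable {E M : Type*} [NormedAddCommGroup E] [NormedSpace ℂ E] [TopologicalSpace M]
  [ChartedSpace E M] {F : Foliation E M}


section
variable [IsManifold 𝓘(ℂ, E) 1 M]

/-- uniqueness of lifts -/
theorem lift_unique {ψ : ℂ → M} (hψ : IsCov F ψ) {U : Set ℂ} (hU : IsPreconnected U)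
    {h₁ h₂ : ℂ → ℂ} (c₁ : ContinuousOn h₁ U) (c₂ : ContinuousOn h₂ U)
    (m₁ : MapsTo h₁ U (ball 0 1)) (m₂ : MapsTo h₂ U (ball 0 1)) {t₀ : ℂ} (ht₀ : t₀ ∈ U)
    (h0 : h₁ t₀ = h₂ t₀) (h : ∀ t ∈ U, ψ (h₁ t) = ψ (h₂ t)) : EqOn h₁ h₂ U := by
  haveI : PreconnectedSpace U := isPreconnected_iff_preconnectedSpace.1 hU
  have r₁ : Continuous (U.restrict h₁) := c₁.restrict
  have r₂ : Continuous (U.restrict h₂) := c₂.restrict
  have hS : IsClopen {t : U | U.restrict h₁ t = U.restrict h₂ t} := by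
    refine ⟨isClosed_eq r₁ r₂, ?_⟩
    rw [isOpen_iff_mem_nhds]
    intro t ht
    have ht' : U.restrict h₁ t = U.restrict h₂ t := ht
    obtain ⟨δ, hδ, hinj⟩ := locally_injective hψ (m₁ t.2)
    have e₁ : ∀ᶠ s in 𝓝 t, U.restrict h₁ s ∈ ball (h₁ t) δ :=
      r₁.continuousAt.eventually_mem (ball_mem_nhds _ hδ)
    have e₂ : ∀ᶠ s in 𝓝 t, U.restrict h₂ s ∈ ball (h₁ t) δ := by
      have h3 : ball (h₁ t) δ ∈ 𝓝 (U.restrict h₂ t) := by
        rw [← ht']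
        exact ball_mem_nhds _ hδ
      exact r₂.continuousAt.eventually_mem h3
    filter_upwards [e₁, e₂] with s hs₁ hs₂
    exact hinj hs₁ hs₂ (h s s.2)
  have hne : ({t : U | U.restrict h₁ t = U.restrict h₂ t}).Nonempty := ⟨⟨t₀, ht₀⟩, h0⟩
  have huniv := hS.eq_univ hne
  intro t ht
  have h4 : (⟨t, ht⟩ : U) ∈ {t : U | U.restrict h₁ t = U.restrict h₂ t} := by
    rw [huniv]
    exact mem_univ _
  exact h4

end

section
variable [IsManifold 𝓘(ℂ, E) 1 M]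

/-- local lifting of tangent discs, with uniform radius -/
theorem lift_local {ψ χ : ℂ → M} (hψ : IsCov F ψ) (hχ : F.IsTangentDisc χ) {R : ℝ} (hR : R < 1) :
    ∃ δ > 0, R + δ ≤ 1 ∧ ∀ ζ : ℂ, ‖ζ‖ ≤ R → ∀ w ∈ ball (0 : ℂ) 1, ψ w = χ ζ → ∃ h : ℂ → ℂ,
      DifferentiableOn ℂ h (ball ζ δ) ∧ MapsTo h (ball ζ δ) (ball 0 1) ∧ h ζ = w ∧
        ∀ t ∈ ball ζ δ, ψ (h t) = χ t := by
  obtain ⟨δ, hδ, hRδ, H⟩ := local_form hχ hR
  refine ⟨δ, hδ, hRδ, ?_⟩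
  intro ζ hζ w hw hwζ
  obtain ⟨B, hB, a, ha1, ha2, ha3, ha4⟩ := H ζ hζ
  obtain ⟨s, hs1, hs2, hs3, hs4⟩ := hψ.2 B w hw (by rw [hwζ]; exact hB)
  refine ⟨fun t => s (a t), hs1.comp ha1 ha2, fun t ht => hs2 (ha2 ht), ?_, ?_⟩
  · show s (a ζ) = w
    rw [ha3, hs3]
  · intro t ht
    show ψ (s (a t)) = χ t
    rw [hs4 _ (ha2 ht), ha4 t ht, hwζ]

end


end Pool.Agent.Helper529.Cov
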